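import Mathlib
import Pool.Agent.U218.ED.Deg

/-! # Degrees over the field of a division group, for complex numbers -/

set_option autoImplicit false
set_option linter.all false

open Polynomial Module IntermediateField

namespace Pool.Agent.U218.PQ

/-- the complex numbers with a positive power in `Γ` -/
def divC (Γ : Subgroup ℂˣ) : Set ℂ :=
  {y | ∃ n : ℕ, 0 < n ∧ ∃ g ∈ Γ, y ^ n = ((g : ℂˣ) : ℂ)}

section cx

variable (L : IntermediateField ℚ ℂ)

/-- the algebraic closure of `L` in `ℂ` -/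
noncomputable abbrev AC : IntermediateField L ℂ := algebraicClosure L ℂ

theorem degree_le_cx
    (hroot : ∀ (ζ : ℂ) (r : ℕ), 0 < r → ζ ^ r = 1 → ζ ∈ L)
    (Γ : Subgroup ℂˣ) (hΓ : ∀ g ∈ Γ, ((g : ℂˣ) : ℂ) ∈ L) (z : ℂ) (hz : IsIntegral ℚ z) :
    (IsGalois L (adjoin L (divC Γ)) ∧
      ∀ σ τ : adjoin L (divC Γ) ≃ₐ[L] adjoin L (divC Γ), σ * τ = τ * σ) ∧
    (∀ T : IntermediateField L ℂ, T ≤ adjoin L (divC Γ) →
      IsGalois L T ∧ ∀ σ τ : T ≃ₐ[L] T, σ * τ = τ * σ) ∧
    (minpoly L z).natDegree ≤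
      finrank L (↥(L⟮z⟯ ⊓ adjoin L (divC Γ))) *
        (minpoly (adjoin ℚ (divC Γ)) z).natDegree := by
  have hACc : IsAlgClosure L (algebraicClosure L ℂ) := inferInstance
  have : IsAlgClosed (algebraicClosure L ℂ) := hACc.isAlgClosed
  have : Algebra.IsAlgebraic L (algebraicClosure L ℂ) := hACc.isAlgebraic
  have hnA : Normal L (algebraicClosure L ℂ) := inferInstance
  have : IsGalois L (algebraicClosure L ℂ) := ⟨⟩
  set A : IntermediateField L ℂ := algebraicClosure L ℂ with hA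
  have hdivA : ∀ y ∈ divC Γ, y ∈ A := by
    rintro y ⟨n, hn, g, hg, hy⟩
    rw [hA, mem_algebraicClosure_iff]
    refine ⟨X ^ n - C (⟨_, hΓ g hg⟩ : L), X_pow_sub_C_ne_zero hn _, ?_⟩
    rw [map_sub, map_pow, aeval_X, aeval_C, hy]
    exact sub_self _
  have hzA : z ∈ A := by
    rw [hA, mem_algebraicClosure_iff]
    exact hz.tower_top.isAlgebraic
  set S' : Set A := {y | (y : ℂ) ∈ divC Γ} with hS'
  set T : IntermediateField L A := adjoin L S' with hT
  have hTmap : T.map A.val = adjoin L (divC Γ) := by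
    rw [hT, adjoin_map]
    congr 1
    ext y
    constructor
    · rintro ⟨x, hx, rfl⟩
      exact hx
    · intro hy
      exact ⟨⟨y, hdivA y hy⟩, hy, rfl⟩
  have hmov : ∀ (σ : A ≃ₐ[L] A), ∀ y ∈ S', ∃ ζ : L, σ y = algebraMap L A ζ * y := by
    rintro σ y ⟨n, hn, g, hg, hy⟩
    have hy' : y ^ n = algebraMap L A ⟨_, hΓ g hg⟩ := Subtype.ext hy
    have hy0 : y ≠ 0 := by
      rintro rfl
      rw [ZeroMemClass.coe_zero, zero_pow hn.ne'] at hy
      exact g.ne_zero hy.symm
    have h1 : (σ y / y) ^ n = 1 := by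
      rw [div_pow, ← map_pow, hy', AlgEquiv.commutes, ← hy', div_self (pow_ne_zero _ hy0)]
    have h2 : ((σ y / y : A) : ℂ) ^ n = 1 := by
      have := congrArg (fun t : A => (t : ℂ)) h1
      simpa using this
    refine ⟨⟨_, hroot _ n hn h2⟩, ?_⟩
    have h3 : algebraMap L A ⟨_, hroot _ n hn h2⟩ = σ y / y := Subtype.ext rfl
    rw [h3, div_mul_cancel₀ _ hy0]
  have hcomm : ∀ (σ τ : A ≃ₐ[L] A), ∀ x ∈ T, σ (τ x) = τ (σ x) := by
    intro σ τ x hx
    induction hx using IntermediateField.adjoin_induction with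
    | mem y hy =>
      obtain ⟨ζ, h1⟩ := hmov σ y hy
      obtain ⟨ξ, h2⟩ := hmov τ y hy
      rw [h2, map_mul, AlgEquiv.commutes, h1, map_mul, AlgEquiv.commutes, h2]
      ring
    | algebraMap x => rw [AlgEquiv.commutes, AlgEquiv.commutes, AlgEquiv.commutes]
    | add x y hx' hy' hx hy => rw [map_add, map_add, hx, hy, map_add, map_add]
    | mul x y hx' hy' hx hy => rw [map_mul, map_mul, hx, hy, map_mul, map_mul]
    | inv x hx' hx => rw [map_inv₀, map_inv₀, hx, map_inv₀, map_inv₀]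
  have hab' : ∀ S : IntermediateField L A, S ≤ T →
      IsGalois L S ∧ ∀ σ τ : S ≃ₐ[L] S, σ * τ = τ * σ := by
    intro S hS
    have hSn : Normal L S := by
      rw [normal_iff_forall_map_le']
      rintro σ _ ⟨x, hx, rfl⟩
      have h12 : fixedField S.fixingSubgroup = S := InfiniteGalois.fixedField_fixingSubgroup S
      rw [← h12]
      rintro ⟨τ, hτ⟩
      have h1 : τ x = x := hτ ⟨x, hx⟩
      have h3 : τ (σ x) = σ (τ x) := hcomm τ σ x (hS hx)
      show τ (σ x) = σ x
      rw [h3, h1]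
    have hSg : IsGalois L S := ⟨⟩
    refine ⟨hSg, ?_⟩
    intro a b
    obtain ⟨σ, rfl⟩ := AlgEquiv.restrictNormalHom_surjective (F := L) (K₁ := S) A a
    obtain ⟨τ, rfl⟩ := AlgEquiv.restrictNormalHom_surjective (F := L) (K₁ := S) A b
    rw [← map_mul, ← map_mul]
    ext ⟨x, hx⟩
    have h1 : ((AlgEquiv.restrictNormalHom S (σ * τ)) ⟨x, hx⟩ : A) =
        (σ * τ) x := AlgEquiv.restrictNormal_commutes (σ * τ) S ⟨x, hx⟩
    have h2 : ((AlgEquiv.restrictNormalHom S (τ * σ)) ⟨x, hx⟩ : A) =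
        (τ * σ) x := AlgEquiv.restrictNormal_commutes (τ * σ) S ⟨x, hx⟩
    have h3 : (AlgEquiv.restrictNormalHom S (σ * τ)) ⟨x, hx⟩ =
        (AlgEquiv.restrictNormalHom S (τ * σ)) ⟨x, hx⟩ := by
      apply Subtype.ext
      rw [h1, h2]
      exact hcomm σ τ x (hS hx)
    rw [h3]
  have hab : ∀ S : IntermediateField L ℂ, S ≤ adjoin L (divC Γ) →
      IsGalois L S ∧ ∀ σ τ : S ≃ₐ[L] S, σ * τ = τ * σ := by
    intro S hS
    obtain ⟨S₁, hS₁, rfl⟩ : ∃ S₁ : IntermediateField L A, S₁ ≤ T ∧ S₁.map A.val = S := by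
      refine ⟨S.comap A.val, ?_, ?_⟩
      · intro x hx
        have h1 : (x : ℂ) ∈ T.map A.val := by
          rw [hTmap]
          exact hS hx
        obtain ⟨x', hx', he⟩ := h1
        have : x' = x := Subtype.ext he
        rw [← this]
        exact hx'
      · apply le_antisymm
        · rintro _ ⟨x, hx, rfl⟩
          exact hx
        · intro x hx
          have h1 : x ∈ T.map A.val := by
            rw [hTmap]
            exact hS hx
          obtain ⟨x', hx', rfl⟩ := h1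
          exact ⟨x', hx, rfl⟩
    obtain ⟨h1, h2⟩ := hab' S₁ hS₁
    let e : S₁ ≃ₐ[L] S₁.map A.val := equivMap S₁ A.val
    refine ⟨IsGalois.of_algEquiv e, fun σ τ => ?_⟩
    have h3 := h2 ((e.trans σ).trans e.symm) ((e.trans τ).trans e.symm)
    ext x
    have h4 := congrArg (fun f : S₁ ≃ₐ[L] S₁ => e (f (e.symm x))) h3
    simp only [AlgEquiv.mul_apply, AlgEquiv.trans_apply, AlgEquiv.apply_symm_apply] at h4
    rw [AlgEquiv.mul_apply, AlgEquiv.mul_apply, h4]
  refine ⟨hab _ le_rfl, hab, ?_⟩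
  have hTn : Normal L T := (hab' T le_rfl).1.to_normal
  set α : A := ⟨z, hzA⟩ with hα
  have h1 := Pool.Agent.U218.ED.degree_le_inf T α
  have e1 : minpoly L α = minpoly L z :=
    (minpoly.algebraMap_eq (algebraMap A ℂ).injective α).symm
  have e2 : finrank L (↥(L⟮α⟯ ⊓ T)) = finrank L (↥(L⟮z⟯ ⊓ adjoin L (divC Γ))) := by
    have h3 : (L⟮α⟯ ⊓ T).map A.val = L⟮z⟯ ⊓ adjoin L (divC Γ) := by
      rw [IntermediateField.map_inf, hTmap, adjoin_map, Set.image_singleton]
      rfl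
    rw [← h3]
    exact (equivMap (L⟮α⟯ ⊓ T) A.val).toLinearEquiv.finrank_eq
  rw [e1, e2] at h1
  refine h1.trans (Nat.mul_le_mul_left _ ?_)
  -- the degree over the smaller field
  have hle : ∀ x ∈ adjoin ℚ (divC Γ), x ∈ T.map A.val := by
    have h2 : adjoin ℚ (divC Γ) ≤ (adjoin L (divC Γ)).restrictScalars ℚ := by
      rw [adjoin_le_iff]
      intro y hy
      exact subset_adjoin L (divC Γ) hy
    intro x hx
    rw [hTmap]
    exact h2 hx
  have hint : IsIntegral (adjoin ℚ (divC Γ)) z := hz.tower_top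
  let ι₀ : adjoin ℚ (divC Γ) →+* T.map A.val :=
    { toFun := fun x => ⟨x.1, hle x.1 x.2⟩
      map_one' := rfl
      map_mul' := fun _ _ => rfl
      map_zero' := rfl
      map_add' := fun _ _ => rfl }
  let ι : adjoin ℚ (divC Γ) →+* T := ((equivMap T A.val).symm : _ →+* T).comp ι₀
  have hι : ∀ x : adjoin ℚ (divC Γ), (((ι x : T) : A) : ℂ) = x := by
    intro x
    have h5 : equivMap T A.val (ι x) = ι₀ x := AlgEquiv.apply_symm_apply _ _
    have h6 := coe_equivMap_apply T A.val (ι x)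
    rw [h5] at h6
    exact h6.symm
  have e3 : minpoly T α ∣ (minpoly (adjoin ℚ (divC Γ)) z).map ι := by
    apply minpoly.dvd
    apply (algebraMap A ℂ).injective
    rw [map_zero, ← eval_map_algebraMap, ← Polynomial.eval_map_apply, Polynomial.map_map,
      Polynomial.map_map]
    have h7 : ((algebraMap A ℂ).comp (algebraMap T A)).comp ι =
        algebraMap (adjoin ℚ (divC Γ)) ℂ := RingHom.ext fun x => hι x
    rw [h7]
    show eval z _ = 0
    rw [eval_map_algebraMap, minpoly.aeval]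
  have e4 := natDegree_le_of_dvd e3 ((Polynomial.map_ne_zero_iff ι.injective).mpr
    (minpoly.ne_zero hint))
  rwa [natDegree_map] at e4

end cx

end Pool.Agent.U218.PQ
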