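import Mathlib
import Pool.Agent.U218.PP.S2
import Pool.Agent.U218.ED.Deg

/-! # Degrees over the field of a division group, sharp form -/

set_option autoImplicit false
set_option linter.all false

open Polynomial Module IntermediateField NumberField

namespace Pool.Agent.U218.PQ

open Pool.Agent.U218.PP (radField divSet root_mem_radField lower)

theorem degree_le (L : IntermediateField ℚ (AlgebraicClosure ℚ))
    (hroot : ∀ (ζ : AlgebraicClosure ℚ) (r : ℕ), 0 < r → ζ ^ r = 1 → ζ ∈ L)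
    (Γ : Subgroup (AlgebraicClosure ℚ)ˣ)
    (hΓ : ∀ g ∈ Γ, ((g : (AlgebraicClosure ℚ)ˣ) : AlgebraicClosure ℚ) ∈ L)
    (α : AlgebraicClosure ℚ) :
    (IsGalois L (adjoin L (divSet Γ)) ∧
      ∀ σ τ : adjoin L (divSet Γ) ≃ₐ[L] adjoin L (divSet Γ), σ * τ = τ * σ) ∧
    (∀ T : IntermediateField L (AlgebraicClosure ℚ), T ≤ adjoin L (divSet Γ) →
      IsGalois L T ∧ ∀ σ τ : T ≃ₐ[L] T, σ * τ = τ * σ) ∧
    (∀ N : IntermediateField L (AlgebraicClosure ℚ), FiniteDimensional L N → Normal L N →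
      α ∈ N → finrank L (↥(L⟮α⟯ ⊓ adjoin L (divSet Γ))) ≤
        Nat.card (Abelianization (N ≃ₐ[L] N))) ∧
    (minpoly L α).natDegree ≤
      finrank L (↥(L⟮α⟯ ⊓ adjoin L (divSet Γ))) *
        (minpoly (adjoin ℚ (divSet Γ)) α).natDegree := by
  have hAlg : Algebra.IsAlgebraic L (AlgebraicClosure ℚ) :=
    @Algebra.IsAlgebraic.tower_top ℚ L (AlgebraicClosure ℚ) _ _ _ _ _ _ _
      (AlgebraicClosure.isAlgebraic ℚ)
  have : IsAlgClosure L (AlgebraicClosure ℚ) := ⟨inferInstance, hAlg⟩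
  have : Normal L (AlgebraicClosure ℚ) := inferInstance
  have : IsGalois L (AlgebraicClosure ℚ) := ⟨⟩
  set T : IntermediateField L (AlgebraicClosure ℚ) := adjoin L (divSet Γ) with hT
  have hmov : ∀ (σ : AlgebraicClosure ℚ ≃ₐ[L] AlgebraicClosure ℚ), ∀ y ∈ divSet Γ,
      ∃ ζ ∈ L, σ y = ζ * y := by
    rintro σ y ⟨n, hn, g, hg, hy⟩
    have hgL := hΓ g hg
    have h1 : σ ((g : (AlgebraicClosure ℚ)ˣ) : AlgebraicClosure ℚ) = g :=
      σ.commutes ⟨_, hgL⟩
    have hy0 : y ≠ 0 := by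
      rintro rfl
      rw [zero_pow hn.ne'] at hy
      exact g.ne_zero hy.symm
    have h2 : (σ y / y) ^ n = 1 := by
      rw [div_pow, ← map_pow, hy, h1, div_self g.ne_zero]
    exact ⟨σ y / y, hroot _ n hn h2, by rw [div_mul_cancel₀ _ hy0]⟩
  have hcomm : ∀ (σ τ : AlgebraicClosure ℚ ≃ₐ[L] AlgebraicClosure ℚ), ∀ x ∈ T,
      σ (τ x) = τ (σ x) := by
    intro σ τ x hx
    induction hx using IntermediateField.adjoin_induction with
    | mem y hy =>
      obtain ⟨ζ, hζ, h1⟩ := hmov σ y hy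
      obtain ⟨ξ, hξ, h2⟩ := hmov τ y hy
      have h3 : σ ξ = ξ := σ.commutes ⟨ξ, hξ⟩
      have h4 : τ ζ = ζ := τ.commutes ⟨ζ, hζ⟩
      rw [h2, map_mul, h3, h1, map_mul, h4, h2]
      ring
    | algebraMap x => rw [AlgEquiv.commutes, AlgEquiv.commutes, AlgEquiv.commutes]
    | add x y hx' hy' hx hy => rw [map_add, map_add, hx, hy, map_add, map_add]
    | mul x y hx' hy' hx hy => rw [map_mul, map_mul, hx, hy, map_mul, map_mul]
    | inv x hx' hx => rw [map_inv₀, map_inv₀, hx, map_inv₀, map_inv₀]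
  have hab : ∀ S : IntermediateField L (AlgebraicClosure ℚ), S ≤ T →
      IsGalois L S ∧ ∀ σ τ : S ≃ₐ[L] S, σ * τ = τ * σ := by
    intro S hS
    have hSn : Normal L S := by
      rw [normal_iff_forall_map_le']
      rintro σ _ ⟨x, hx, rfl⟩
      have h12 : fixedField S.fixingSubgroup = S := InfiniteGalois.fixedField_fixingSubgroup S
      rw [← h12]
      rintro ⟨τ, hτ⟩
      have h1 : τ x = x := hτ ⟨x, hx⟩
      have h3 : τ (σ x) = σ (τ x) := hcomm τ σ x (hS hx)
      show τ (σ x) = σ x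
      rw [h3, h1]
    have hSg : IsGalois L S := ⟨⟩
    refine ⟨hSg, ?_⟩
    intro a b
    obtain ⟨σ, rfl⟩ := AlgEquiv.restrictNormalHom_surjective (F := L) (K₁ := S)
      (AlgebraicClosure ℚ) a
    obtain ⟨τ, rfl⟩ := AlgEquiv.restrictNormalHom_surjective (F := L) (K₁ := S)
      (AlgebraicClosure ℚ) b
    rw [← map_mul, ← map_mul]
    ext ⟨x, hx⟩
    have h1 : ((AlgEquiv.restrictNormalHom S (σ * τ)) ⟨x, hx⟩ : AlgebraicClosure ℚ) =
        (σ * τ) x := AlgEquiv.restrictNormal_commutes (σ * τ) S ⟨x, hx⟩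
    have h2 : ((AlgEquiv.restrictNormalHom S (τ * σ)) ⟨x, hx⟩ : AlgebraicClosure ℚ) =
        (τ * σ) x := AlgEquiv.restrictNormal_commutes (τ * σ) S ⟨x, hx⟩
    rw [h1, h2]
    exact hcomm σ τ x (hS hx)
  refine ⟨hab T le_rfl, hab, ?_, ?_⟩
  · intro N _ _ hαN
    have hn : Normal L (↥(L⟮α⟯ ⊓ T)) := (hab _ inf_le_right).1.to_normal
    exact Pool.Agent.U218.PP.finrank_le_card_ab N (L⟮α⟯ ⊓ T)
      (inf_le_left.trans (by rw [adjoin_simple_le_iff]; exact hαN))
      fun σ τ x hx => hcomm σ τ x hx.2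
  have hTn : Normal L T := (hab T le_rfl).1.to_normal
  have h1 := Pool.Agent.U218.ED.degree_le_inf T α
  refine h1.trans (Nat.mul_le_mul_left _ ?_)
  -- the degree over the smaller field
  have hle : ∀ x ∈ adjoin ℚ (divSet Γ), x ∈ T := by
    have h2 : adjoin ℚ (divSet Γ) ≤ T.restrictScalars ℚ := by
      rw [adjoin_le_iff]
      intro y hy
      exact subset_adjoin L (divSet Γ) hy
    exact h2
  have hint : IsIntegral (adjoin ℚ (divSet Γ)) α :=
    (Pool.Agent.H58P.qb_isIntegral α).tower_top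
  let ι : adjoin ℚ (divSet Γ) →+* T :=
    { toFun := fun x => ⟨x.1, hle x.1 x.2⟩
      map_one' := rfl
      map_mul' := fun _ _ => rfl
      map_zero' := rfl
      map_add' := fun _ _ => rfl }
  have e1 : minpoly T α ∣ (minpoly (adjoin ℚ (divSet Γ)) α).map ι := by
    apply minpoly.dvd
    rw [aeval_def, eval₂_map]
    have : (algebraMap T (AlgebraicClosure ℚ)).comp ι =
        algebraMap (adjoin ℚ (divSet Γ)) (AlgebraicClosure ℚ) := rfl
    rw [this, ← aeval_def, minpoly.aeval]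
  have e2 := natDegree_le_of_dvd e1 ((Polynomial.map_ne_zero_iff ι.injective).mpr
    (minpoly.ne_zero hint))
  rwa [natDegree_map] at e2

theorem main_div (K : IntermediateField ℚ (AlgebraicClosure ℚ)) [FiniteDimensional ℚ K] {m : ℕ}
    (hm : 0 < m) : ∃ A : ℕ, 0 < A ∧ ∀ Γ : Subgroup (AlgebraicClosure ℚ)ˣ,
      (∀ g ∈ Γ, ((g : (AlgebraicClosure ℚ)ˣ) : AlgebraicClosure ℚ) ∈ radField K m) →
      (IsGalois (radField K m) (adjoin (radField K m) (divSet Γ)) ∧
        ∀ σ τ : adjoin (radField K m) (divSet Γ) ≃ₐ[radField K m]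
          adjoin (radField K m) (divSet Γ), σ * τ = τ * σ) ∧
      ∀ α : AlgebraicClosure ℚ,
        (∀ N : IntermediateField (radField K m) (AlgebraicClosure ℚ),
          FiniteDimensional (radField K m) N → Normal (radField K m) N → α ∈ N →
          finrank (radField K m) (↥((radField K m)⟮α⟯ ⊓ adjoin (radField K m) (divSet Γ))) ≤
            Nat.card (Abelianization (N ≃ₐ[radField K m] N))) ∧
        (IsIntegral ℤ α → α ≠ 0 → (∀ r : ℕ, 0 < r → α ^ r ≠ 1) →
        (∀ b D : ℕ, b = finrank (radField K m)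
          (↥((radField K m)⟮α⟯ ⊓ adjoin (radField K m) (divSet Γ))) →
          D = (minpoly (adjoin ℚ (divSet Γ)) α).natDegree →
          1 / ((A : ℝ) * b * D * (1 + Real.log (b * D)) ^ A) ≤
            NumberField.absLogHeight₁ α) ∧
        ((∀ T : IntermediateField (radField K m) (AlgebraicClosure ℚ),
          T ≤ (radField K m)⟮α⟯ → (IsGalois (radField K m) T ∧
            ∀ σ τ : T ≃ₐ[radField K m] T, σ * τ = τ * σ) → T = ⊥) →
          ∀ D : ℕ, D = (minpoly (adjoin ℚ (divSet Γ)) α).natDegree →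
          1 / ((A : ℝ) * D * (1 + Real.log D) ^ A) ≤ NumberField.absLogHeight₁ α)) := by
  obtain ⟨A, hA, h⟩ := lower K hm
  refine ⟨A, hA, fun Γ hΓ => ?_⟩
  have h0 := degree_le (radField K m) (fun ζ r hr hζ => root_mem_radField K m hr hζ) Γ hΓ
  refine ⟨(h0 0).1, fun α => ⟨(h0 α).2.2.1, fun hint hα0 hr => ?_⟩⟩
  have h1 := h (radField K m) le_rfl α hint hα0 hr
  obtain ⟨-, hab, -, h2⟩ := h0 α
  have key : ∀ b D : ℕ, (minpoly (radField K m) α).natDegree ≤ b * D →
      1 / ((A : ℝ) * b * D * (1 + Real.log (b * D)) ^ A) ≤ NumberField.absLogHeight₁ α := by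
    intro b D h2
    set D' : ℕ := (minpoly (radField K m) α).natDegree with hD'
    have hD'0 : 0 < D' := minpoly.natDegree_pos hint.tower_top
    have hA0 : (0 : ℝ) < A := by exact_mod_cast hA
    have h3 : (1 : ℝ) ≤ D' := by exact_mod_cast hD'0
    have h4 : (D' : ℝ) ≤ b * D := by exact_mod_cast h2
    have hl : 0 ≤ Real.log D' := Real.log_nonneg h3
    have hl2 : Real.log D' ≤ Real.log (b * D) := Real.log_le_log (by linarith) h4
    have hh0 : 0 ≤ NumberField.absLogHeight₁ α := by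
      by_contra hcon
      push Not at hcon
      have : (A : ℝ) * D' * (1 + Real.log D') ^ A * NumberField.absLogHeight₁ α ≤ 0 :=
        mul_nonpos_of_nonneg_of_nonpos (by positivity) hcon.le
      linarith
    have h5 : 0 < (b : ℝ) * D := by linarith
    have hl3 : 0 ≤ Real.log ((b : ℝ) * D) := hl.trans hl2
    rw [mul_assoc (A : ℝ), div_le_iff₀ (by positivity)]
    calc (1 : ℝ) ≤ (A : ℝ) * D' * (1 + Real.log D') ^ A * NumberField.absLogHeight₁ α := h1
      _ ≤ (A : ℝ) * (b * D) * (1 + Real.log (b * D)) ^ A * NumberField.absLogHeight₁ α := by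
        gcongr
      _ = NumberField.absLogHeight₁ α * (A * (b * D) * (1 + Real.log (b * D)) ^ A) := by ring
  refine ⟨?_, ?_⟩
  · rintro b D rfl rfl
    exact key _ _ h2
  · rintro hno D rfl
    have h3 := hno ((radField K m)⟮α⟯ ⊓ adjoin (radField K m) (divSet Γ)) inf_le_left
      (hab _ inf_le_right)
    rw [h3, IntermediateField.finrank_bot] at h2
    have h4 := key 1 _ h2
    rw [Nat.cast_one, mul_one, one_mul] at h4
    exact h4

end Pool.Agent.U218.PQ
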